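import Pool.Agent.H44.EQ.Targets

/-!
# The minimal set of pairs which cannot be separated
-/

set_option autoImplicit false

namespace Pool.Agent.H60.EQ

open Pool.Agent.H44.EQ Pool.Agent.H53.GC Pool.Agent.H53.NR Pool.Agent.H68.BP Pool.Agent.H58.SF
open Classical

theorem pf_MIN : T_MIN := by
  intro σ V 𝔸 hI
  unfold Inj2 at hI
  push Not at hI
  obtain ⟨n, q, hq, hγ⟩ := hI
  have hp1 : BinPol 𝔸 q fun p => q p.1 := fun l a b ha _ => ha
  have hp2 : BinPol 𝔸 q fun p => q p.2 := fun l a b _ hb => hb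
  obtain ⟨good, hgood⟩ : ∃ good : Finset ((Fin n × Fin n) × (Fin n × Fin n)) → Prop,
      ∀ U, good U ↔ ∃ γ, BinPol 𝔸 q γ ∧ ∀ u ∈ U, γ u.1 ≠ γ u.2 := ⟨_, fun _ => Iff.rfl⟩
  obtain ⟨S, hS⟩ : ∃ S : Set (Finset ((Fin n × Fin n) × (Fin n × Fin n))),
      ∀ U, U ∈ S ↔ (∀ u ∈ U, u.1 ≠ u.2) ∧ ¬ good U := ⟨{U | (∀ u ∈ U, u.1 ≠ u.2) ∧ ¬ good U},
        fun _ => Iff.rfl⟩
  have hne : S.Nonempty := by
    refine ⟨Finset.univ.filter fun u => u.1 ≠ u.2, (hS _).2 ⟨fun u hu => ?_, fun h => ?_⟩⟩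
    · exact (Finset.mem_filter.1 hu).2
    · obtain ⟨γ, h1, h2⟩ := (hgood _).1 h
      refine hγ γ h1 fun p p' hpp => ?_
      by_contra hne
      exact h2 (p, p') (Finset.mem_filter.2 ⟨Finset.mem_univ _, hne⟩) hpp
  obtain ⟨U, hU, hmin⟩ := WellFounded.has_min
    (wellFounded_lt (α := Finset ((Fin n × Fin n) × (Fin n × Fin n)))) S hne
  obtain ⟨hU1, hU2⟩ := (hS U).1 hU
  have hsub : ∀ U', U' ⊂ U → good U' := by
    intro U' h
    by_contra hg
    exact hmin U' ((hS _).2 ⟨fun u hu => hU1 u (h.1 hu), hg⟩) h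
  have hne' : U.Nonempty := by
    rw [Finset.nonempty_iff_ne_empty]
    rintro rfl
    exact hU2 ((hgood _).2 ⟨_, hp1, fun u hu => absurd hu (Finset.notMem_empty u)⟩)
  rcases hne'.exists_eq_singleton_or_nontrivial with ⟨u, hu⟩ | hnt
  · exfalso
    apply hU2
    rw [hgood, hu]
    have h1 : u.1 ≠ u.2 := hU1 u (by rw [hu]; exact Finset.mem_singleton_self u)
    by_cases h2 : u.1.1 = u.2.1
    · refine ⟨_, hp2, fun u' hu' h3 => h1 (Prod.ext h2 ?_)⟩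
      rw [Finset.mem_singleton.1 hu'] at h3
      exact hq h3
    · refine ⟨_, hp1, fun u' hu' h3 => h2 ?_⟩
      rw [Finset.mem_singleton.1 hu'] at h3
      exact hq h3
  · obtain ⟨u0, h0, u1, h1, h01⟩ := hnt
    obtain ⟨γ0, hb0, hs0⟩ := (hgood _).1 (hsub (U.erase u0) (Finset.erase_ssubset h0))
    obtain ⟨γ1, hb1, hs1⟩ := (hgood _).1 (hsub (U.erase u1) (Finset.erase_ssubset h1))
    refine ⟨n, q, γ0, γ1, u0.1, u0.2, u1.1, u1.2, (U : Set _), hq, hb0, hb1, ?_, ?_, ?_, ?_, ?_, ?_⟩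
    · by_contra hcon
      refine hU2 ((hgood _).2 ⟨γ0, hb0, fun u hu => ?_⟩)
      by_cases h : u = u0
      · rw [h]; exact hcon
      · exact hs0 u (Finset.mem_erase.2 ⟨h, hu⟩)
    · exact hs1 u0 (Finset.mem_erase.2 ⟨h01, h0⟩)
    · by_contra hcon
      refine hU2 ((hgood _).2 ⟨γ1, hb1, fun u hu => ?_⟩)
      by_cases h : u = u1
      · rw [h]; exact hcon
      · exact hs1 u (Finset.mem_erase.2 ⟨h, hu⟩)
    · exact hs0 u1 (Finset.mem_erase.2 ⟨fun h => h01 h.symm, h1⟩)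
    · intro γ hγb
      by_contra hcon
      push Not at hcon
      exact hU2 ((hgood _).2 ⟨γ, hγb, fun u hu => hcon u (Finset.mem_coe.2 hu)⟩)
    · intro u hu
      by_cases h : u = u0
      · exact Or.inl h
      by_cases h' : u = u1
      · exact Or.inr (Or.inl h')
      exact Or.inr (Or.inr ⟨hs0 u (Finset.mem_erase.2 ⟨h, Finset.mem_coe.1 hu⟩),
        hs1 u (Finset.mem_erase.2 ⟨h', Finset.mem_coe.1 hu⟩)⟩)

end Pool.Agent.H60.EQ
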