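import Pool.Agent.H38.EQ.Targets

/-!
# Row HTL of the board eqr (MP_7ecdd4_nt): radical at most `X`, squarefull part at most `Y`,
large height
-/

set_option autoImplicit false

open Finset

namespace Pool.Agent.H60.EQ

open Pool.Agent.H38.EQ
open Pool.Agent.H38.AE.Statement (Admissible radical)
open Pool.Agent.H38.AT (height)
open Pool.Agent.H82.AS (Sqf ex)

theorem htl_pow {z Y a : ℝ} (hz : 1 ≤ z) (hzY : z ≤ Y) (ha : a ≤ 1) : z ^ a ≤ Y := by
  have h1 : z ^ a ≤ z ^ (1 : ℝ) := Real.rpow_le_rpow_of_exponent_le hz ha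
  rw [Real.rpow_one] at h1
  exact h1.trans hzY

/-- the product is the quotient by the radical times the radical -/
theorem htl_rad {n : ℕ} {x : Fin n → ℤ} : (pr x : ℝ) = ex (pr x) * (radical (∏ i, x i) : ℝ) := by
  have h0 : (radical (∏ i, x i) : ℝ) = (Pool.Agent.H38.PS.pd (pr x).primeFactors : ℝ) := rfl
  have h1 : (Pool.Agent.H38.PS.pd (pr x).primeFactors : ℝ) ≠ 0 := by
    have h2 : Pool.Agent.H38.PS.pd (pr x).primeFactors ≠ 0 := by
      unfold Pool.Agent.H38.PS.pd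
      exact Finset.prod_ne_zero_iff.mpr fun p hp => (Nat.prime_of_mem_primeFactors hp).ne_zero
    exact_mod_cast h2
  rw [h0]
  unfold ex
  rw [div_mul_cancel₀ _ h1]

theorem pf_HTL (h1 : T_ADN) (h3 : Pool.Agent.H82.AS.T_SQB) : T_HTL := by
  classical
  intro n hn Y hY
  obtain ⟨C, hC, hA⟩ := h1 n hn
  refine ⟨2 * C * Y ^ 4, by positivity, ?_⟩
  intro X lam F hX hlam hF
  have hn3 : (3 : ℝ) ≤ n := by exact_mod_cast hn
  have hn0 : (0 : ℝ) < n := by linarith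
  have hX0 : (0 : ℝ) < X := by linarith
  have hl0 : (0 : ℝ) < lam := by linarith
  have hY0 : (0 : ℝ) < Y := by linarith
  have hinv : 1 / (n : ℝ) ≤ 1 / 3 := one_div_le_one_div_of_le (by norm_num) hn3
  have hinv0 : 0 < 1 / (n : ℝ) := by positivity
  have hpr : ∀ x ∈ F, 1 ≤ pr x := by
    intro x hx
    have h := (hF x hx).1.1
    have h2 : (∏ i, x i) ≠ 0 := Finset.prod_ne_zero_iff.mpr fun i _ => h i
    exact Nat.one_le_iff_ne_zero.mpr (Int.natAbs_ne_zero.mpr h2)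
  have hsq1 : ∀ x ∈ F, 1 ≤ Pool.Agent.H82.AS.sq (pr x) := by
    intro x hx
    have h := (h3 (pr x) (hpr x hx)).2.1
    exact Nat.pos_of_dvd_of_pos h (hpr x hx)
  have hmaps : ∀ x ∈ F, Pool.Agent.H82.AS.sq (pr x) ∈ Finset.Icc 1 ⌊Y⌋₊ := by
    intro x hx
    rw [Finset.mem_Icc]
    exact ⟨hsq1 x hx, Nat.le_floor (hF x hx).2.2.1⟩
  set B : ℝ := 2 * C * Y ^ 3 * lam ^ (-(1 / 2) : ℝ) * X ^ (1 - 1 / (n : ℝ)) with hB
  have hlp : 0 < lam ^ (-(1 / 2) : ℝ) := Real.rpow_pos_of_pos hl0 _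
  have hXp : 0 < X ^ (1 - 1 / (n : ℝ)) := Real.rpow_pos_of_pos hX0 _
  have hB0 : 0 ≤ B := by positivity
  have key : ∀ D ∈ Finset.Icc 1 ⌊Y⌋₊,
      ((F.filter (fun x => Pool.Agent.H82.AS.sq (pr x) = D)).card : ℝ) ≤ B := by
    intro D hD
    rw [Finset.mem_Icc] at hD
    obtain ⟨hD1, hD2⟩ := hD
    have hDY : (D : ℝ) ≤ Y := (Nat.le_floor_iff hY0.le).mp hD2
    have hD1r : (1 : ℝ) ≤ D := by exact_mod_cast hD1
    obtain ⟨-, -, -, -, hE, hDD, -⟩ := h3 D hD1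
    have he1 : 1 ≤ ex D := (hE D dvd_rfl).1
    have heY : ex D ≤ Y := hDD.trans hDY
    have he0 : 0 < ex D := by linarith
    set T : ℝ := X * ex D with hT
    have hT1 : 1 ≤ T := by nlinarith
    have hFD : ∀ x ∈ F.filter (fun x => Pool.Agent.H82.AS.sq (pr x) = D),
        Admissible x ∧ D ∣ pr x ∧ (pr x : ℝ) ≤ T := by
      intro x hx
      rw [Finset.mem_filter] at hx
      obtain ⟨hxF, hxD⟩ := hx
      have hs := h3 (pr x) (hpr x hxF)
      refine ⟨(hF x hxF).1, hxD ▸ hs.2.1, ?_⟩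
      have hex : ex (pr x) = ex D := by rw [← hxD]; exact hs.2.2.1.symm
      rw [htl_rad, hex, hT, mul_comm X]
      exact mul_le_mul_of_nonneg_left (hF x hxF).2.1 he0.le
    obtain ⟨hP1, hP2⟩ := hA D T (F.filter (fun x => Pool.Agent.H82.AS.sq (pr x) = D)) hD1 hT1 hFD
    -- the size of the main factor
    have hTa : T ^ (1 - 1 / (n : ℝ)) ≤ X ^ (1 - 1 / (n : ℝ)) * Y := by
      rw [hT, Real.mul_rpow hX0.le he0.le]
      exact mul_le_mul_of_nonneg_left (htl_pow he1 heY (by linarith)) hXp.le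
    have hTb : T ^ (1 - 2 / (n : ℝ)) ≤ X ^ (1 - 1 / (n : ℝ)) * Y := by
      refine le_trans (Real.rpow_le_rpow_of_exponent_le hT1 ?_) hTa
      have : 2 / (n : ℝ) = 2 * (1 / (n : ℝ)) := by ring
      rw [this]
      linarith
    have hTa' : T ^ (1 - 1 / (n : ℝ)) / D ≤ X ^ (1 - 1 / (n : ℝ)) * Y := by
      refine le_trans (div_le_self ?_ hD1r) hTa
      positivity
    have hM : T ^ (1 - 1 / (n : ℝ)) / D + T ^ (1 - 2 / (n : ℝ)) ≤
        2 * Y * X ^ (1 - 1 / (n : ℝ)) := by linarith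
    have hM0 : 0 ≤ T ^ (1 - 1 / (n : ℝ)) / D + T ^ (1 - 2 / (n : ℝ)) := by positivity
    have hDp : (D : ℝ) ^ (1 / (8 * (n : ℝ))) ≤ Y := by
      refine htl_pow hD1r hDY ?_
      rw [div_le_one (by positivity)]
      linarith
    have hDp0 : 0 ≤ (D : ℝ) ^ (1 / (8 * (n : ℝ))) := by positivity
    have hexn : ex D ^ (1 / (n : ℝ)) ≤ Y := htl_pow he1 heY (by linarith)
    have hexn0 : 0 < ex D ^ (1 / (n : ℝ)) := Real.rpow_pos_of_pos he0 _
    have hTn : T ^ (1 / (n : ℝ)) = X ^ (1 / (n : ℝ)) * ex D ^ (1 / (n : ℝ)) := by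
      rw [hT, Real.mul_rpow hX0.le he0.le]
    by_cases hcase : ex D ^ (1 / (n : ℝ)) ≤ lam
    · -- the second part
      have hl1 : 1 ≤ lam / ex D ^ (1 / (n : ℝ)) := by rwa [le_div_iff₀ hexn0, one_mul]
      have h2 := hP2 (lam / ex D ^ (1 / (n : ℝ))) hl1 (by
        intro x hx
        rw [Finset.mem_filter] at hx
        refine le_trans (le_of_eq ?_) (hF x hx.1).2.2.2
        rw [hTn]
        field_simp)
      have hle : (lam / ex D ^ (1 / (n : ℝ))) ^ (-(1 / 2) : ℝ) ≤ lam ^ (-(1 / 2) : ℝ) * Y := by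
        rw [Real.div_rpow hl0.le hexn0.le, div_eq_mul_inv, ← Real.rpow_neg hexn0.le, neg_neg,
          ← Real.rpow_mul he0.le]
        refine mul_le_mul_of_nonneg_left (htl_pow he1 heY ?_) hlp.le
        linarith
      have hle0 : 0 ≤ (lam / ex D ^ (1 / (n : ℝ))) ^ (-(1 / 2) : ℝ) := by positivity
      calc ((F.filter (fun x => Pool.Agent.H82.AS.sq (pr x) = D)).card : ℝ)
          ≤ C * (D : ℝ) ^ (1 / (8 * (n : ℝ))) *
            (lam / ex D ^ (1 / (n : ℝ))) ^ (-(1 / 2) : ℝ) *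
            (T ^ (1 - 1 / (n : ℝ)) / D + T ^ (1 - 2 / (n : ℝ))) := h2
        _ ≤ C * Y * (lam ^ (-(1 / 2) : ℝ) * Y) * (2 * Y * X ^ (1 - 1 / (n : ℝ))) := by
            gcongr
        _ = B := by rw [hB]; ring
    · -- the first part
      push Not at hcase
      have hlY : lam ≤ Y := hcase.le.trans hexn
      have hl2 : 1 ≤ Y * lam ^ (-(1 / 2) : ℝ) := by
        rw [Real.rpow_neg hl0.le, ← div_eq_mul_inv, le_div_iff₀ (Real.rpow_pos_of_pos hl0 _),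
          one_mul]
        exact htl_pow hlam hlY (by norm_num)
      calc ((F.filter (fun x => Pool.Agent.H82.AS.sq (pr x) = D)).card : ℝ)
          ≤ C * (D : ℝ) ^ (1 / (8 * (n : ℝ))) *
            (T ^ (1 - 1 / (n : ℝ)) / D + T ^ (1 - 2 / (n : ℝ))) := hP1
        _ ≤ C * Y * (2 * Y * X ^ (1 - 1 / (n : ℝ))) := by gcongr
        _ = (C * Y * (2 * Y * X ^ (1 - 1 / (n : ℝ)))) * 1 := by ring
        _ ≤ (C * Y * (2 * Y * X ^ (1 - 1 / (n : ℝ)))) * (Y * lam ^ (-(1 / 2) : ℝ)) := by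
            refine mul_le_mul_of_nonneg_left hl2 (by positivity)
        _ = B := by rw [hB]; ring
  have hcard : (F.card : ℝ) = ∑ D ∈ Finset.Icc 1 ⌊Y⌋₊,
      ((F.filter (fun x => Pool.Agent.H82.AS.sq (pr x) = D)).card : ℝ) := by
    rw [Finset.card_eq_sum_card_fiberwise (f := fun x => Pool.Agent.H82.AS.sq (pr x))
      (t := Finset.Icc 1 ⌊Y⌋₊) (fun x hx => hmaps x hx)]
    push_cast
    rfl
  rw [hcard]
  calc ∑ D ∈ Finset.Icc 1 ⌊Y⌋₊, ((F.filter (fun x => Pool.Agent.H82.AS.sq (pr x) = D)).card : ℝ)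
      ≤ ∑ D ∈ Finset.Icc 1 ⌊Y⌋₊, B := Finset.sum_le_sum key
    _ = (⌊Y⌋₊ : ℝ) * B := by simp
    _ ≤ Y * B := mul_le_mul_of_nonneg_right (Nat.floor_le hY0.le) hB0
    _ = 2 * C * Y ^ 4 * lam ^ (-(1 / 2) : ℝ) * X ^ (1 - 1 / (n : ℝ)) := by rw [hB]; ring

end Pool.Agent.H60.EQ
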